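import Pool.Agent.Lib.P8e91ed.NoOracle

/-!
# A radial bump which avoids finitely many radii, with a prescribed slope

Package for MP_8e91ed_lc SharpModulus.
-/

set_option autoImplicit false

open MeasureTheory Set Filter Topology

noncomputable section

namespace Pool.Agent.Lib.P8e91s

open Pool.Agent.Lib.P8e91ed.NoOracle

/-- Projection of the line to the `c`-th shell. -/
def clampS (c : ℕ) (t : ℝ) : ℝ := max (rad (c + 1)) (min t (rad c))

lemma rad_succ_le (c : ℕ) : rad (c + 1) ≤ rad c := rad_anti (Nat.le_succ c)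

lemma clampS_ge (c : ℕ) (t : ℝ) : rad (c + 1) ≤ clampS c t := le_max_left _ _

lemma clampS_le (c : ℕ) (t : ℝ) : clampS c t ≤ rad c :=
  max_le (rad_succ_le c) (min_le_right _ _)

lemma clampS_lo {c : ℕ} {t : ℝ} (h : t ≤ rad (c + 1)) : clampS c t = rad (c + 1) := by
  unfold clampS
  rw [min_eq_left (h.trans (rad_succ_le c)), max_eq_left h]

lemma clampS_hi {c : ℕ} {t : ℝ} (h : rad c ≤ t) : clampS c t = rad c := by
  unfold clampS
  rw [min_eq_right h, max_eq_right (rad_succ_le c)]

lemma clampS_mid {c : ℕ} {t : ℝ} (h1 : rad (c + 1) ≤ t) (h2 : t ≤ rad c) : clampS c t = t := by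
  unfold clampS
  rw [min_eq_left h2, max_eq_right h1]

lemma clampS_lip (c : ℕ) (s t : ℝ) : |clampS c s - clampS c t| ≤ |s - t| := by
  unfold clampS
  refine (abs_max_sub_max_le_max _ _ _ _).trans ?_
  rw [sub_self, abs_zero]
  refine max_le (abs_nonneg _) ?_
  refine (abs_min_sub_min_le_max _ _ _ _).trans ?_
  rw [sub_self, abs_zero]
  exact max_le le_rfl (abs_nonneg _)

/-- The radii at which the bump vanishes. -/
def Tset (c : ℕ) (T : Finset ℝ) : Finset ℝ :=
  insert (rad (c + 1)) (insert (rad c) (T.image (clampS c)))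

lemma Tset_card (c : ℕ) (T : Finset ℝ) : (Tset c T).card ≤ T.card + 2 := by
  unfold Tset
  have h1 := Finset.card_insert_le (rad (c + 1)) (insert (rad c) (T.image (clampS c)))
  have h2 := Finset.card_insert_le (rad c) (T.image (clampS c))
  have h3 : (T.image (clampS c)).card ≤ T.card := Finset.card_image_le
  omega

lemma Tset_mem {c : ℕ} {T : Finset ℝ} {τ : ℝ} (h : τ ∈ Tset c T) :
    rad (c + 1) ≤ τ ∧ τ ≤ rad c := by
  unfold Tset at h
  rcases Finset.mem_insert.1 h with rfl | h
  · exact ⟨le_rfl, rad_succ_le c⟩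
  rcases Finset.mem_insert.1 h with rfl | h
  · exact ⟨rad_succ_le c, le_rfl⟩
  obtain ⟨x, -, rfl⟩ := Finset.mem_image.1 h
  exact ⟨clampS_ge c x, clampS_le c x⟩

/-- The bump: height `H`, slope `H / δ`. -/
def spike (c : ℕ) (T : Finset ℝ) (H δ : ℝ) (t : ℝ) : ℝ :=
  H / δ * min δ (Metric.infDist (clampS c t) (Tset c T : Set ℝ))

section
variable {c : ℕ} {T : Finset ℝ} {H δ : ℝ}

lemma spike_nonneg (hH : 0 ≤ H) (hδ : 0 < δ) (t : ℝ) : 0 ≤ spike c T H δ t :=
  mul_nonneg (by positivity) (le_min hδ.le Metric.infDist_nonneg)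

lemma spike_le (hH : 0 ≤ H) (hδ : 0 < δ) (t : ℝ) : spike c T H δ t ≤ H := by
  unfold spike
  calc H / δ * min δ (Metric.infDist (clampS c t) (Tset c T : Set ℝ))
      ≤ H / δ * δ := mul_le_mul_of_nonneg_left (min_le_left _ _) (by positivity)
    _ = H := by field_simp

lemma spike_lip (hH : 0 ≤ H) (hδ : 0 < δ) (s t : ℝ) :
    |spike c T H δ s - spike c T H δ t| ≤ H / δ * |s - t| := by
  unfold spike
  rw [← mul_sub, abs_mul, abs_of_nonneg (by positivity : 0 ≤ H / δ)]
  refine mul_le_mul_of_nonneg_left ?_ (by positivity)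
  refine (abs_min_sub_min_le_max _ _ _ _).trans ?_
  rw [sub_self, abs_zero]
  refine max_le (abs_nonneg _) ?_
  refine le_trans ?_ (clampS_lip c s t)
  have hl := (Metric.lipschitz_infDist_pt (Tset c T : Set ℝ)).dist_le_mul (clampS c s) (clampS c t)
  simpa [Real.dist_eq] using hl

lemma spike_continuous (c : ℕ) (T : Finset ℝ) (H δ : ℝ) : Continuous (spike c T H δ) := by
  unfold spike
  have h0 : Continuous (clampS c) := by unfold clampS; fun_prop
  have h2 : Continuous (fun t : ℝ => Metric.infDist (clampS c t) (Tset c T : Set ℝ)) :=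
    (Metric.continuous_infDist_pt _).comp h0
  exact continuous_const.mul (continuous_const.min h2)

lemma spike_zero_of_mem (hδ : 0 < δ) {t : ℝ} (h : clampS c t ∈ Tset c T) :
    spike c T H δ t = 0 := by
  unfold spike
  rw [Metric.infDist_zero_of_mem (by exact_mod_cast h), min_eq_right hδ.le, mul_zero]

lemma spike_zero_lo (hδ : 0 < δ) {t : ℝ} (h : t ≤ rad (c + 1)) : spike c T H δ t = 0 :=
  spike_zero_of_mem hδ (by rw [clampS_lo h]; simp [Tset])

lemma spike_zero_hi (hδ : 0 < δ) {t : ℝ} (h : rad c ≤ t) : spike c T H δ t = 0 :=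
  spike_zero_of_mem hδ (by rw [clampS_hi h]; simp [Tset])

lemma spike_zero_T (hδ : 0 < δ) {t : ℝ} (h : t ∈ T) : spike c T H δ t = 0 :=
  spike_zero_of_mem hδ (by
    unfold Tset
    exact Finset.mem_insert_of_mem (Finset.mem_insert_of_mem (Finset.mem_image_of_mem _ h)))

lemma spike_eq (hδ : 0 < δ) {t : ℝ} (h1 : rad (c + 1) ≤ t) (h2 : t ≤ rad c)
    (h : ∀ τ ∈ Tset c T, δ ≤ |t - τ|) : spike c T H δ t = H := by
  unfold spike
  rw [clampS_mid h1 h2, min_eq_left, div_mul_cancel₀ _ hδ.ne']
  refine (Metric.le_infDist ⟨rad c, by simp [Tset]⟩).2 fun τ hτ => ?_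
  rw [Real.dist_eq]
  exact h τ (by exact_mod_cast hτ)

end

/-! ### Volumes -/

variable {d : ℕ}

/-- Volume of the unit ball. -/
def v1 (d : ℕ) : ℝ := volume.real (Metric.ball (0 : Sp d) 1)

lemma v1_pos (d : ℕ) : 0 < v1 d := by
  unfold v1
  exact ENNReal.toReal_pos (Metric.measure_ball_pos volume _ one_pos).ne'
    measure_ball_lt_top.ne

lemma vol_ball [Nontrivial (Sp d)] (r : ℝ) (hr : 0 ≤ r) : volume.real (Metric.ball (0 : Sp d) r) = r ^ d * v1 d := by
  unfold v1 Measure.real
  rw [Measure.addHaar_ball volume (0 : Sp d) hr, ENNReal.toReal_mul,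
    ENNReal.toReal_ofReal (by positivity), finrank_euclideanSpace_fin]

/-- The annulus of the points whose norm is at distance less than `δ` from `τ`. -/
def ann (d : ℕ) (τ δ : ℝ) : Set (Sp d) := {x | |‖x‖ - τ| < δ}

lemma ann_open (τ δ : ℝ) : IsOpen (ann d τ δ) :=
  isOpen_lt ((continuous_norm.sub continuous_const).abs) continuous_const

lemma pow_diff_le {a b : ℝ} (ha : 0 ≤ a) (hab : a ≤ b) (hb : b ≤ 1) (n : ℕ) :
    b ^ n - a ^ n ≤ n * (b - a) := by
  induction n with
  | zero => simp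
  | succ n ih =>
    have h1 : b ^ n ≤ 1 := pow_le_one₀ (ha.trans hab) hb
    have h2 : 0 ≤ b ^ n - a ^ n := sub_nonneg.2 (pow_le_pow_left₀ ha hab n)
    have : b ^ (n + 1) - a ^ (n + 1) = b ^ n * (b - a) + a * (b ^ n - a ^ n) := by ring
    rw [this]
    push_cast
    have h3 : b ^ n * (b - a) ≤ 1 * (b - a) :=
      mul_le_mul_of_nonneg_right h1 (by linarith)
    have h4 : a * (b ^ n - a ^ n) ≤ 1 * (b ^ n - a ^ n) :=
      mul_le_mul_of_nonneg_right (hab.trans hb) h2
    linarith

lemma ann_vol [Nontrivial (Sp d)] {τ δ : ℝ} (h0 : δ ≤ τ) (hδ : 0 ≤ δ) (h1 : τ + δ ≤ 1) :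
    volume.real (ann d τ δ) ≤ 2 * d * δ * v1 d := by
  have hsub : ann d τ δ ⊆ Metric.ball (0 : Sp d) (τ + δ) \ Metric.ball (0 : Sp d) (τ - δ) := by
    intro x hx
    have hx' := abs_lt.1 (show |‖x‖ - τ| < δ from hx)
    simp only [Set.mem_sdiff, Metric.mem_ball, dist_zero_right, not_lt]
    constructor <;> linarith [hx'.1, hx'.2]
  have hb : Metric.ball (0 : Sp d) (τ - δ) ⊆ Metric.ball (0 : Sp d) (τ + δ) :=
    Metric.ball_subset_ball (by linarith)
  have h2 : volume.real (Metric.ball (0 : Sp d) (τ + δ) \ Metric.ball (0 : Sp d) (τ - δ)) =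
      (τ + δ) ^ d * v1 d - (τ - δ) ^ d * v1 d := by
    rw [measureReal_sdiff hb measurableSet_ball, vol_ball _ (by linarith), vol_ball _ (by linarith)]
  have h3 : volume.real (ann d τ δ) ≤
      volume.real (Metric.ball (0 : Sp d) (τ + δ) \ Metric.ball (0 : Sp d) (τ - δ)) :=
    measureReal_mono hsub ((measure_mono sdiff_subset).trans_lt measure_ball_lt_top).ne
  refine h3.trans ?_
  rw [h2, ← sub_mul]
  refine mul_le_mul_of_nonneg_right ?_ (v1_pos d).le
  refine (pow_diff_le (by linarith) (by linarith) h1 d).trans (le_of_eq ?_)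
  ring

/-- The open shell. -/
def shell (d c : ℕ) : Set (Sp d) := {x | rad (c + 1) < ‖x‖ ∧ ‖x‖ < rad c}

lemma shell_open (c : ℕ) : IsOpen (shell d c) :=
  (isOpen_lt continuous_const continuous_norm).inter (isOpen_lt continuous_norm continuous_const)

lemma shell_vol [Nontrivial (Sp d)] (hd : 1 ≤ d) (c : ℕ) :
    rad c ^ d / 2 * v1 d ≤ volume.real (shell d c) := by
  have h1 : shell d c = Metric.ball (0 : Sp d) (rad c) \ Metric.closedBall (0 : Sp d) (rad (c + 1)) := by
    ext x
    simp only [shell, Set.mem_ofPred_eq, Set.mem_sdiff, Metric.mem_ball, Metric.mem_closedBall,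
      dist_zero_right, not_le]
    tauto
  have hb : Metric.closedBall (0 : Sp d) (rad (c + 1)) ⊆ Metric.ball (0 : Sp d) (rad c) :=
    Metric.closedBall_subset_ball (by rw [rad_succ]; have := rad_pos c; linarith)
  have h2 : volume.real (Metric.closedBall (0 : Sp d) (rad (c + 1))) = rad (c + 1) ^ d * v1 d := by
    rw [← vol_ball _ (rad_pos _).le]
    unfold Measure.real
    rw [Measure.addHaar_closedBall_eq_addHaar_ball]
  rw [h1, measureReal_sdiff hb measurableSet_closedBall, vol_ball _ (rad_pos _).le, h2, ← sub_mul]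
  refine mul_le_mul_of_nonneg_right ?_ (v1_pos d).le
  rw [rad_succ, div_pow]
  have h3 : (2 : ℝ) ≤ 2 ^ d := by
    calc (2 : ℝ) = 2 ^ 1 := by norm_num
      _ ≤ 2 ^ d := pow_le_pow_right₀ (by norm_num) hd
  have h4 : 0 < rad c ^ d := pow_pos (rad_pos c) d
  have h5 : rad c ^ d / 2 ^ d ≤ rad c ^ d / 2 := div_le_div_of_nonneg_left h4.le (by norm_num) h3
  linarith

/-- The width of the bump for `N` radii. -/
def width (d c N : ℕ) : ℝ := rad c ^ d / (8 * d * (N + 2))

lemma width_pos (hd : 1 ≤ d) (c N : ℕ) : 0 < width d c N := by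
  unfold width
  have := rad_pos c
  have : (0 : ℝ) < d := by exact_mod_cast hd
  positivity

lemma width_le (hd : 1 ≤ d) (c N : ℕ) : width d c N ≤ rad c / 16 := by
  unfold width
  have h0 := rad_pos c
  have h1 : rad c ≤ 1 := (rad_le_half c).trans (by norm_num)
  have h2 : rad c ^ d ≤ rad c := by
    calc rad c ^ d ≤ rad c ^ 1 := pow_le_pow_of_le_one h0.le h1 hd
      _ = rad c := pow_one _
  have h3 : (1 : ℝ) ≤ d := by exact_mod_cast hd
  have h4 : (0 : ℝ) ≤ N := Nat.cast_nonneg N
  have h5 : (16 : ℝ) ≤ 8 * d * (N + 2) := by nlinarith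
  calc rad c ^ d / (8 * d * (N + 2)) ≤ rad c / 16 :=
    div_le_div₀ h0.le h2 (by norm_num) h5

lemma spike_integral [Nontrivial (Sp d)] (hd : 1 ≤ d) (c : ℕ) (T : Finset ℝ) {N : ℕ}
    (hN : T.card ≤ N) {H : ℝ} (hH : 0 ≤ H) :
    H * (rad c ^ d / 4 * v1 d) ≤ ∫ x : Sp d, spike c T H (width d c N) ‖x‖ := by
  classical
  set δ := width d c N with hδd
  have hδ : 0 < δ := width_pos hd c _
  have hδ16 : δ ≤ rad c / 16 := width_le hd c _
  have hr := rad_pos c
  have hrh := rad_le_half c
  set B : Set (Sp d) := ⋃ τ ∈ Tset c T, ann d τ δ with hB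
  have hBm : MeasurableSet B := Finset.measurableSet_biUnion _ fun τ _ => (ann_open τ δ).measurableSet
  have hfin : volume (shell d c) < ⊤ := by
    refine (measure_mono (t := Metric.ball (0 : Sp d) (rad c)) ?_).trans_lt measure_ball_lt_top
    intro x hx
    simpa using hx.2
  have hBv : volume.real B ≤ rad c ^ d / 4 * v1 d := by
    have h1 : volume.real B ≤ ∑ τ ∈ Tset c T, volume.real (ann d τ δ) :=
      measureReal_biUnion_finset_le _ _
    have h2 : ∀ τ ∈ Tset c T, volume.real (ann d τ δ) ≤ 2 * d * δ * v1 d := by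
      intro τ hτ
      obtain ⟨a1, a2⟩ := Tset_mem hτ
      rw [rad_succ] at a1
      exact ann_vol (by linarith) hδ.le (by linarith)
    have h3 := Finset.sum_le_sum h2
    rw [Finset.sum_const, nsmul_eq_mul] at h3
    have h4 : ((Tset c T).card : ℝ) ≤ (N : ℝ) + 2 := by
      have := Tset_card c T
      exact_mod_cast this.trans (by omega : T.card + 2 ≤ N + 2)
    have hd0 : (0 : ℝ) < d := by exact_mod_cast hd
    have hv := v1_pos d
    have h5 : ((Tset c T).card : ℝ) * (2 * d * δ * v1 d) ≤ ((N : ℝ) + 2) * (2 * d * δ * v1 d) :=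
      mul_le_mul_of_nonneg_right h4 (by positivity)
    refine h1.trans (h3.trans (h5.trans (le_of_eq ?_)))
    rw [hδd]
    unfold width
    have : ((N : ℝ) + 2) ≠ 0 := by positivity
    field_simp
    ring
  have hG : rad c ^ d / 4 * v1 d ≤ volume.real (shell d c \ B) := by
    have h1 := shell_vol (d := d) hd c
    have h2 : volume.real (shell d c) ≤ volume.real (shell d c \ B) + volume.real B := by
      have h3 : shell d c ⊆ (shell d c \ B) ∪ B := by
        intro x hx
        by_cases hxB : x ∈ B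
        · exact Or.inr hxB
        · exact Or.inl ⟨hx, hxB⟩
      have hBf : volume B ≠ ⊤ := by
        refine ((measure_biUnion_finset_le _ _).trans_lt ?_).ne
        refine ENNReal.sum_lt_top.2 fun τ hτ => ?_
        refine (measure_mono (t := Metric.ball (0 : Sp d) (τ + δ)) ?_).trans_lt measure_ball_lt_top
        intro x hx
        have hx' := abs_lt.1 (show |‖x‖ - τ| < δ from hx)
        simp only [Metric.mem_ball, dist_zero_right]
        linarith [hx'.2]
      have hGf : volume (shell d c \ B) ≠ ⊤ := ((measure_mono sdiff_subset).trans_lt hfin).ne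
      refine (measureReal_mono h3 (measure_union_lt_top hGf.lt_top hBf.lt_top).ne).trans ?_
      exact measureReal_union_le _ _
    have h6 : rad c ^ d / 2 * v1 d = rad c ^ d / 4 * v1 d + rad c ^ d / 4 * v1 d := by ring
    linarith
  have hGm : MeasurableSet (shell d c \ B) := (shell_open c).measurableSet.diff hBm
  have hint : Integrable (fun x : Sp d => spike c T H δ ‖x‖) :=
    integrable_radial (spike_continuous c T H δ) fun t ht => spike_zero_hi hδ (by linarith)
  calc H * (rad c ^ d / 4 * v1 d) ≤ H * volume.real (shell d c \ B) :=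
        mul_le_mul_of_nonneg_left hG hH
    _ = ∫ x in shell d c \ B, H := by
        rw [setIntegral_const, smul_eq_mul, mul_comm]
    _ = ∫ x in shell d c \ B, spike c T H δ ‖x‖ := by
        refine setIntegral_congr_fun hGm fun x hx => ?_
        refine (spike_eq hδ hx.1.1.le hx.1.2.le fun τ hτ => ?_).symm
        by_contra hlt
        exact hx.2 (Set.mem_iUnion₂.2 ⟨τ, hτ, not_le.1 hlt⟩)
    _ ≤ ∫ x : Sp d, spike c T H δ ‖x‖ :=
        setIntegral_le_integral hint (Eventually.of_forall fun x => spike_nonneg hH hδ _)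

end Pool.Agent.Lib.P8e91s
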