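import Pool.Agent.Lib.P8e91s.Slow

/-!
# Examples of moduli and of budgets which are too small

Package for MP_8e91ed_lc SharpModulus.
-/

set_option autoImplicit false

open Filter Topology

noncomputable section

namespace Pool.Agent.Lib.P8e91s

lemma modulus_of_div {w : ℝ → ℝ} (hpos : ∀ t, 0 < t → t ≤ 1 → 0 < w t)
    (hmono : ∀ s t, 0 < s → s ≤ t → t ≤ 1 → w s ≤ w t)
    (hdiv : ∀ s t, 0 < s → s ≤ t → t ≤ 1 → w t * s ≤ w s * t) : Modulus w where
  pos := hpos
  mono := hmono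
  subadd s t hs ht hst := by
    have h1 := hdiv s (s + t) hs (by linarith) hst
    have h2 := hdiv t (s + t) ht (by linarith) hst
    have h3 : w (s + t) * (s + t) ≤ (w s + w t) * (s + t) := by nlinarith
    exact le_of_mul_le_mul_right h3 (by linarith)

/-- The logarithmic modulus. -/
lemma modulus_log : Modulus (fun t => 1 / (1 - Real.log t)) := by
  have hlog : ∀ t : ℝ, 0 < t → t ≤ 1 → 1 ≤ 1 - Real.log t := fun t h0 h1 => by
    have := Real.log_nonpos h0.le h1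
    linarith
  refine modulus_of_div ?_ ?_ ?_
  · intro t h0 h1
    have := hlog t h0 h1
    positivity
  · intro s t hs hst ht
    have h1 := hlog t (hs.trans_le hst) ht
    have h2 := Real.log_le_log hs hst
    exact div_le_div_of_nonneg_left zero_le_one (by linarith) (by linarith)
  · intro s t hs hst ht
    have ht0 : 0 < t := hs.trans_le hst
    have h1 := hlog t ht0 ht
    have h2 := hlog s hs (hst.trans ht)
    have h3 : Real.log t - Real.log s ≤ t / s - 1 := by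
      rw [← Real.log_div ht0.ne' hs.ne']
      exact Real.log_le_sub_one_of_pos (div_pos ht0 hs)
    have h4 : s * (Real.log t - Real.log s) ≤ t - s := by
      calc s * (Real.log t - Real.log s) ≤ s * (t / s - 1) := mul_le_mul_of_nonneg_left h3 hs.le
        _ = t - s := by field_simp
    have h5 : s * (1 - Real.log s) ≤ t * (1 - Real.log t) := by
      have h6 : 0 ≤ (t - s) * (-Real.log t) :=
        mul_nonneg (by linarith) (by linarith)
      nlinarith
    rw [div_mul_eq_mul_div, div_mul_eq_mul_div, one_mul, one_mul,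
      div_le_div_iff₀ (by linarith) (by linarith)]
    exact h5

/-- For the logarithmic modulus every quasipolynomial budget is too small. -/
theorem tooSmall_log (c : ℕ) : TooSmall (fun t => 1 / (1 - Real.log t))
    (fun ε => 2 ^ (c * (Nat.log 2 ⌈1 / ε⌉₊ + 1) ^ c)) := by
  intro K g hK hg hg1
  have hlg : Real.log g ≤ 0 := Real.log_nonpos hg.le hg1
  -- the choice of `m`
  have hlim : Tendsto (fun m : ℕ => ((m + 1 : ℕ) : ℝ) ^ c / 2 ^ (m + 1)) atTop (𝓝 0) :=
    (tendsto_pow_const_div_const_pow_of_one_lt c (one_lt_two)).comp (tendsto_add_atTop_nat 1)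
  have hlim2 : Tendsto (fun m : ℕ => ((1 : ℝ) / 2) ^ m) atTop (𝓝 0) :=
    tendsto_pow_atTop_nhds_zero_of_lt_one (by norm_num) (by norm_num)
  have hlim3 : Tendsto (fun m : ℕ => K * (2 - Real.log g) * ((1 : ℝ) / 2) ^ m +
      2 * K * c * (((m + 1 : ℕ) : ℝ) ^ c / 2 ^ (m + 1))) atTop (𝓝 0) := by
    have := (hlim2.const_mul (K * (2 - Real.log g))).add (hlim.const_mul (2 * K * c))
    simpa using this
  obtain ⟨m, hm1, hm⟩ := ((eventually_ge_atTop 1).and
    ((tendsto_order.1 hlim3).2 1 one_pos)).exists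
  have h2m : (0 : ℝ) < 2 ^ m := by positivity
  refine ⟨1 / 2 ^ m, by positivity, ?_, ?_⟩
  · rw [div_lt_one (by positivity)]
    exact one_lt_pow₀ (by norm_num) (by omega)
  have hceil : ⌈(1 : ℚ) / (1 / 2 ^ m)⌉₊ = 2 ^ m := by
    have : (1 : ℚ) / (1 / 2 ^ m) = ((2 ^ m : ℕ) : ℚ) := by push_cast; field_simp
    rw [this, Nat.ceil_natCast]
  show K * (((1 / 2 ^ m : ℚ)) : ℝ) ≤ 1 / (1 - Real.log (g /
    ((((2 ^ (c * (Nat.log 2 ⌈(1 : ℚ) / (1 / 2 ^ m)⌉₊ + 1) ^ c)) : ℕ) : ℝ) + 1)))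
  rw [hceil, Nat.log_pow (by norm_num)]
  set e : ℕ := c * (m + 1) ^ c with he
  have hN : (0 : ℝ) < ((2 ^ e : ℕ) : ℝ) + 1 := by positivity
  rw [Real.log_div hg.ne' hN.ne']
  have hlN0 : 0 ≤ Real.log (((2 ^ e : ℕ) : ℝ) + 1) :=
    Real.log_nonneg (by have : (0 : ℝ) ≤ ((2 ^ e : ℕ) : ℝ) := Nat.cast_nonneg _; linarith)
  have hlN : Real.log (((2 ^ e : ℕ) : ℝ) + 1) ≤ (e : ℝ) + 1 := by
    have h1 : ((2 ^ e : ℕ) : ℝ) + 1 ≤ 2 ^ (e + 1) := by
      push_cast
      rw [pow_succ]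
      have : (1 : ℝ) ≤ 2 ^ e := one_le_pow₀ (by norm_num)
      linarith
    have h2 := Real.log_le_log hN h1
    rw [Real.log_pow] at h2
    have h3 : Real.log 2 ≤ 1 := by have := Real.log_two_lt_d9; linarith
    have h4 : ((e + 1 : ℕ) : ℝ) * Real.log 2 ≤ ((e + 1 : ℕ) : ℝ) * 1 :=
      mul_le_mul_of_nonneg_left h3 (Nat.cast_nonneg _)
    push_cast at h2 h4 ⊢
    linarith
  have hpos : 0 < 1 - (Real.log g - Real.log (((2 ^ e : ℕ) : ℝ) + 1)) := by linarith
  rw [le_div_iff₀ hpos]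
  push_cast
  have h5 : 1 - (Real.log g - Real.log (((2 ^ e : ℕ) : ℝ) + 1)) ≤
      2 - Real.log g + c * ((m : ℝ) + 1) ^ c := by
    have h6 : (e : ℝ) = c * ((m : ℝ) + 1) ^ c := by rw [he]; push_cast; ring
    linarith
  push_cast at h5 hm
  have h7 : K * (1 / 2 ^ m) * (1 - (Real.log g - Real.log (2 ^ e + 1))) ≤
      K * (1 / 2 ^ m) * (2 - Real.log g + c * ((m : ℝ) + 1) ^ c) :=
    mul_le_mul_of_nonneg_left h5 (by positivity)
  refine h7.trans (le_trans (le_of_eq ?_) hm.le)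
  rw [one_div_pow, pow_succ]
  field_simp

/-- The Hölder modulus. -/
lemma modulus_rpow {a : ℝ} (ha : 0 < a) (ha1 : a ≤ 1) : Modulus (fun t => t ^ a) := by
  refine modulus_of_div ?_ ?_ ?_
  · intro t h0 _
    exact Real.rpow_pos_of_pos h0 a
  · intro s t hs hst _
    exact Real.rpow_le_rpow hs.le hst ha.le
  · intro s t hs hst _
    have ht0 : 0 < t := hs.trans_le hst
    have h1 : t ^ (a - 1) ≤ s ^ (a - 1) :=
      Real.antitoneOn_rpow_Ioi_of_exponent_nonpos (by linarith) hs ht0 hst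
    have h2 : t ^ a = t ^ (a - 1) * t := by
      rw [← Real.rpow_add_one ht0.ne']; ring_nf
    have h3 : s ^ a = s ^ (a - 1) * s := by
      rw [← Real.rpow_add_one hs.ne']; ring_nf
    show t ^ a * s ≤ s ^ a * t
    rw [h2, h3]
    have := mul_le_mul_of_nonneg_right h1 (by positivity : 0 ≤ t * s)
    linarith

/-- For the Hölder modulus `t^a` the budgets `c ⌈1/ε⌉^b` with `a b < 1` are too small. -/
theorem tooSmall_rpow {a : ℝ} (ha : 0 < a) (b c : ℕ) (hab : a * b < 1) :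
    TooSmall (fun t => t ^ a) (fun ε => c * ⌈1 / ε⌉₊ ^ b) := by
  intro K g hK hg hg1
  set q : ℝ := (g / ((c : ℝ) + 1)) ^ a with hq
  have hq0 : 0 < q := Real.rpow_pos_of_pos (by positivity) a
  have hlim : Tendsto (fun m : ℕ => (m : ℝ) ^ (1 - a * b)) atTop atTop :=
    (tendsto_rpow_atTop (by linarith)).comp tendsto_natCast_atTop_atTop
  obtain ⟨m, hm2, hm⟩ := ((eventually_ge_atTop 2).and
    (hlim.eventually_ge_atTop (K / q))).exists
  have hm0 : (0 : ℝ) < m := by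
    have : 0 < m := by omega
    exact_mod_cast this
  have hm0' : (0 : ℚ) < m := by exact_mod_cast hm0
  refine ⟨1 / m, by positivity, ?_, ?_⟩
  · rw [div_lt_one hm0']
    have : 1 < m := by omega
    exact_mod_cast this
  have hceil : ⌈(1 : ℚ) / (1 / m)⌉₊ = m := by
    have : (1 : ℚ) / (1 / m) = (m : ℚ) := by field_simp
    rw [this, Nat.ceil_natCast]
  show K * (((1 / m : ℚ)) : ℝ) ≤ (g / (((c * ⌈(1 : ℚ) / (1 / m)⌉₊ ^ b : ℕ) : ℝ) + 1)) ^ a
  rw [hceil]
  push_cast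
  have hmb : (1 : ℝ) ≤ (m : ℝ) ^ b := by
    refine one_le_pow₀ ?_
    have : 1 ≤ m := by omega
    exact_mod_cast this
  have hc0 : (0 : ℝ) ≤ c := Nat.cast_nonneg c
  have h1 : g / ((c : ℝ) + 1) / (m : ℝ) ^ b ≤ g / ((c : ℝ) * (m : ℝ) ^ b + 1) := by
    rw [div_div]
    refine div_le_div_of_nonneg_left hg.le (by positivity) ?_
    nlinarith
  have h2 : (g / ((c : ℝ) + 1) / (m : ℝ) ^ b) ^ a ≤ (g / ((c : ℝ) * (m : ℝ) ^ b + 1)) ^ a :=
    Real.rpow_le_rpow (by positivity) h1 ha.le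
  refine le_trans ?_ h2
  rw [Real.div_rpow (by positivity) (by positivity), ← hq, ← Real.rpow_natCast,
    ← Real.rpow_mul hm0.le, le_div_iff₀ (Real.rpow_pos_of_pos hm0 _)]
  have h3 : (m : ℝ) ^ (1 - a * b) = m / (m : ℝ) ^ ((b : ℝ) * a) := by
    rw [Real.rpow_sub hm0, Real.rpow_one, mul_comm a]
  rw [h3, div_le_div_iff₀ hq0 (Real.rpow_pos_of_pos hm0 _)] at hm
  rw [one_div, mul_assoc, mul_comm ((m : ℝ)⁻¹), ← mul_assoc, ← div_eq_mul_inv, div_le_iff₀ hm0]
  linarith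

end Pool.Agent.Lib.P8e91s
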