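import Mathlib

/-!
# Moduli of continuity and query budgets

Package for MP_8e91ed_lc SharpModulus.
-/

set_option autoImplicit false

noncomputable section

namespace Pool.Agent.Lib.P8e91s

/-- `w` is a modulus of continuity on `(0,1]`: positive, nondecreasing and subadditive. -/
structure Modulus (w : ℝ → ℝ) : Prop where
  pos : ∀ t, 0 < t → t ≤ 1 → 0 < w t
  mono : ∀ s t, 0 < s → s ≤ t → t ≤ 1 → w s ≤ w t
  subadd : ∀ s t, 0 < s → 0 < t → s + t ≤ 1 → w (s + t) ≤ w s + w t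

/-- The budget `N` of oracle answers is too small for the modulus `w`: for all `K, g > 0` there is
an error `ε` with `K ε ≤ w (g / (N(ε) + 1))`. -/
def TooSmall (w : ℝ → ℝ) (N : ℚ → ℕ) : Prop :=
  ∀ K g : ℝ, 0 < K → 0 < g → g ≤ 1 → ∃ ε : ℚ, 0 < ε ∧ ε < 1 ∧
    K * (ε : ℝ) ≤ w (g / ((N ε : ℝ) + 1))

lemma Modulus.nsmul {w : ℝ → ℝ} (hw : Modulus w) {s : ℝ} (hs : 0 < s) (k : ℕ)
    (hk : ((k : ℝ) + 1) * s ≤ 1) : w (((k : ℝ) + 1) * s) ≤ ((k : ℝ) + 1) * w s := by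
  induction k with
  | zero => simp
  | succ k ih =>
    push_cast at hk ⊢
    have h1 : ((k : ℝ) + 1) * s ≤ 1 := by nlinarith
    have h2 : ((k : ℝ) + 1 + 1) * s = ((k : ℝ) + 1) * s + s := by ring
    rw [h2] at hk ⊢
    have h3 := hw.subadd (((k : ℝ) + 1) * s) s (by positivity) hs hk
    have h4 := ih h1
    linarith

lemma Modulus.two {w : ℝ → ℝ} (hw : Modulus w) {s t : ℝ} (hs : 0 < s) (hst : s ≤ t)
    (ht : t ≤ 1) : w t * s ≤ 2 * w s * t := by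
  have hws := hw.pos s hs (hst.trans ht)
  have ht0 : 0 < t := hs.trans_le hst
  -- `k + 1 = floor (t / s)`
  obtain ⟨k, hk1, hk2⟩ : ∃ k : ℕ, ((k : ℝ) + 1) * s ≤ t ∧ t < ((k : ℝ) + 1 + 1) * s := by
    have h1 : 1 ≤ ⌊t / s⌋₊ := (Nat.one_le_floor_iff _).2 ((one_le_div hs).2 hst)
    obtain ⟨k, hk⟩ : ∃ k, ⌊t / s⌋₊ = k + 1 := ⟨⌊t / s⌋₊ - 1, by omega⟩
    refine ⟨k, ?_, ?_⟩
    · have h2 := Nat.floor_le (show 0 ≤ t / s by positivity)
      rw [hk] at h2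
      push_cast at h2
      rwa [le_div_iff₀ hs] at h2
    · have h2 := Nat.lt_floor_add_one (t / s)
      rw [hk] at h2
      push_cast at h2
      rwa [div_lt_iff₀ hs] at h2
  have h3 := hw.nsmul hs k (hk1.trans ht)
  have h4 : w t ≤ ((k : ℝ) + 1 + 1) * w s := by
    rcases hk1.eq_or_lt with h | h
    · rw [← h]
      nlinarith
    · have h5 := hw.subadd (((k : ℝ) + 1) * s) (t - ((k : ℝ) + 1) * s) (by positivity)
        (by linarith) (by linarith)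
      have h6 : ((k : ℝ) + 1) * s + (t - ((k : ℝ) + 1) * s) = t := by ring
      rw [h6] at h5
      have h7 := hw.mono (t - ((k : ℝ) + 1) * s) s (by linarith) (by linarith) (hst.trans ht)
      linarith
  have hk0 : (0 : ℝ) ≤ k := Nat.cast_nonneg k
  calc w t * s ≤ ((k : ℝ) + 1 + 1) * w s * s := mul_le_mul_of_nonneg_right h4 hs.le
    _ ≤ 2 * w s * (((k : ℝ) + 1) * s) := by nlinarith [mul_pos hws hs]
    _ ≤ 2 * w s * t := mul_le_mul_of_nonneg_left hk1 (by positivity)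

/-- The choice of `ε` for a budget which is too small. -/
theorem exists_eps {w : ℝ → ℝ} (hw : Modulus w) {N : ℚ → ℕ} (hN : TooSmall w N) {a g K : ℝ}
    (ha : 0 < a) (hg : 0 < g) (hg1 : g ≤ 1) (hK : 0 < K) :
    ∃ ε : ℚ, 0 < ε ∧ ε < 1 ∧ K * (ε : ℝ) ≤ min a (w (g / ((N ε : ℝ) + 1))) := by
  have hw1 := hw.pos 1 one_pos le_rfl
  obtain ⟨ε, h0, h1, h3⟩ := hN (max K (K * w 1 / a)) g (lt_max_of_lt_left hK) hg hg1
  have hε0 : (0 : ℝ) < ε := by exact_mod_cast h0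
  have hN0 : (0 : ℝ) ≤ N ε := Nat.cast_nonneg _
  have hwle : w (g / ((N ε : ℝ) + 1)) ≤ w 1 := by
    refine hw.mono _ _ (by positivity) ?_ le_rfl
    rw [div_le_one (by positivity)]
    linarith
  refine ⟨ε, h0, h1, le_min ?_ ?_⟩
  · have h4 : K * w 1 / a * (ε : ℝ) ≤ w 1 :=
      (mul_le_mul_of_nonneg_right (le_max_right _ _) hε0.le).trans (h3.trans hwle)
    rw [div_mul_eq_mul_div, div_le_iff₀ ha] at h4
    by_contra hcon
    push Not at hcon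
    nlinarith
  · exact (mul_le_mul_of_nonneg_right (le_max_left _ _) hε0.le).trans h3

/-- If the modulus is not bounded by a power, then every polynomial budget is too small. -/
theorem tooSmall_poly {w : ℝ → ℝ} (hw : Modulus w)
    (hslow : ∀ C a : ℝ, 0 < a → ∃ t, 0 < t ∧ t ≤ 1 ∧ C * t ^ a < w t) (c : ℕ) :
    TooSmall w (fun ε => c * ⌈1 / ε⌉₊ ^ c) := by
  intro K g hK hg hg1
  -- the exponent `c + 1` and the constant `g' = g / (q + 1)`
  set k : ℕ := c + 1 with hk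
  have hk0 : (0 : ℝ) < k := by rw [hk]; positivity
  have hki : (0 : ℝ) < 1 / (k : ℝ) := by positivity
  set q : ℝ := (c : ℝ) * 2 ^ c with hq
  set g' : ℝ := g / (q + 1) with hg'
  have hc0 : 0 ≤ q := by positivity
  have hg'0 : 0 < g' := by positivity
  have hg'1 : g' ≤ 1 := by
    rw [hg', div_le_one (by positivity)]
    linarith
  set e0 : ℝ := 1 / 2 with he0
  have he0pos : 0 < e0 := by rw [he0]; norm_num
  set C : ℝ := max (2 * K / g' ^ (1 / (k : ℝ))) (w 1 / (g' * e0 ^ k) ^ (1 / (k : ℝ))) with hC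
  obtain ⟨t, ht0, ht1, htw⟩ := hslow C (1 / (k : ℝ)) hki
  have hge : 0 < g' * e0 ^ k := by positivity
  have htpow : 0 < t ^ (1 / (k : ℝ)) := Real.rpow_pos_of_pos ht0 _
  -- `t` is small
  have hts : t < g' * e0 ^ k := by
    by_contra hcon
    push Not at hcon
    have h1 : w t ≤ w 1 := hw.mono t 1 ht0 ht1 le_rfl
    have h2 : (g' * e0 ^ k) ^ (1 / (k : ℝ)) ≤ t ^ (1 / (k : ℝ)) :=
      Real.rpow_le_rpow hge.le hcon hki.le
    have h3 : w 1 ≤ C * t ^ (1 / (k : ℝ)) := by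
      have h4 : w 1 / (g' * e0 ^ k) ^ (1 / (k : ℝ)) ≤ C := le_max_right _ _
      have h5 : 0 < (g' * e0 ^ k) ^ (1 / (k : ℝ)) := Real.rpow_pos_of_pos hge _
      have h6 : 0 < w 1 := hw.pos 1 one_pos le_rfl
      calc w 1 = w 1 / (g' * e0 ^ k) ^ (1 / (k : ℝ)) * (g' * e0 ^ k) ^ (1 / (k : ℝ)) := by
            field_simp
        _ ≤ C * t ^ (1 / (k : ℝ)) := mul_le_mul h4 h2 h5.le (le_trans (by positivity) h4)
    linarith
  -- the real candidate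
  set e : ℝ := (t / g') ^ (1 / (k : ℝ)) with he
  have hepos : 0 < e := Real.rpow_pos_of_pos (by positivity) _
  have hec : e ^ k = t / g' := by
    rw [he, ← Real.rpow_natCast, ← Real.rpow_mul (by positivity), one_div,
      inv_mul_cancel₀ hk0.ne', Real.rpow_one]
  have hee0 : e < e0 := by
    have h1 : e ^ k < e0 ^ k := by
      rw [hec, div_lt_iff₀ hg'0]
      linarith
    exact lt_of_pow_lt_pow_left₀ k he0pos.le h1
  obtain ⟨ε, h1, h2⟩ := exists_rat_btwn (show e < min (2 * e) e0 from lt_min (by linarith) hee0)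
  have hε0 : (0 : ℝ) < ε := hepos.trans h1
  have hε2 : (ε : ℝ) < 2 * e := h2.trans_le (min_le_left _ _)
  have hεe : (ε : ℝ) < e0 := h2.trans_le (min_le_right _ _)
  have hε1 : (ε : ℝ) < 1 := by rw [he0] at hεe; linarith
  refine ⟨ε, by exact_mod_cast hε0, by exact_mod_cast hε1, ?_⟩
  have hinv : 1 ≤ 1 / (ε : ℝ) := by
    rw [le_div_iff₀ hε0]; linarith
  have hp1 : (1 : ℝ) ≤ (1 / (ε : ℝ)) ^ c := one_le_pow₀ hinv
  have hp2 : (1 / (ε : ℝ)) ^ c ≤ (1 / (ε : ℝ)) ^ k := pow_le_pow_right₀ hinv (by omega)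
  set n : ℕ := c * ⌈1 / ε⌉₊ ^ c with hn
  have hn0 : (0 : ℝ) ≤ (n : ℝ) := Nat.cast_nonneg n
  have hceil : ((⌈1 / ε⌉₊ : ℕ) : ℝ) ≤ 2 * (1 / (ε : ℝ)) := by
    have hε0' : (0 : ℚ) < ε := by exact_mod_cast hε0
    have h1 : ((⌈1 / ε⌉₊ : ℕ) : ℚ) < 1 / ε + 1 := Nat.ceil_lt_add_one (by positivity)
    have h2 : ((⌈1 / ε⌉₊ : ℕ) : ℝ) < 1 / (ε : ℝ) + 1 := by exact_mod_cast h1
    linarith
  have hnle : (n : ℝ) ≤ q * (1 / (ε : ℝ)) ^ c := by
    rw [hn]
    push_cast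
    calc (c : ℝ) * ((⌈1 / ε⌉₊ : ℕ) : ℝ) ^ c ≤ (c : ℝ) * (2 * (1 / (ε : ℝ))) ^ c :=
          mul_le_mul_of_nonneg_left (pow_le_pow_left₀ (Nat.cast_nonneg _) hceil c)
            (Nat.cast_nonneg c)
      _ = q * (1 / (ε : ℝ)) ^ c := by rw [hq, mul_pow]; ring
  have hN1 : (n : ℝ) + 1 ≤ (q + 1) * (1 / (ε : ℝ)) ^ k := by
    nlinarith
  have h3 : t ≤ g / ((n : ℝ) + 1) := by
    have h4 : e ^ k ≤ (ε : ℝ) ^ k := pow_le_pow_left₀ hepos.le h1.le k
    rw [hec, div_le_iff₀ hg'0] at h4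
    have h5 : g / ((q + 1) * (1 / (ε : ℝ)) ^ k) ≤ g / ((n : ℝ) + 1) :=
      div_le_div_of_nonneg_left hg.le (by positivity) hN1
    refine le_trans (h4.trans (le_of_eq ?_)) h5
    rw [hg', one_div, inv_pow]
    field_simp
  have h5 : g / ((n : ℝ) + 1) ≤ 1 := by
    rw [div_le_one (by positivity)]
    linarith
  have h6 := hw.mono t _ ht0 h3 h5
  have h7 : 2 * K / g' ^ (1 / (k : ℝ)) ≤ C := le_max_left _ _
  have h8 : e = t ^ (1 / (k : ℝ)) / g' ^ (1 / (k : ℝ)) := by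
    rw [he, Real.div_rpow ht0.le hg'0.le]
  calc K * (ε : ℝ) ≤ K * (2 * e) := mul_le_mul_of_nonneg_left hε2.le hK.le
    _ = 2 * K / g' ^ (1 / (k : ℝ)) * t ^ (1 / (k : ℝ)) := by rw [h8]; ring
    _ ≤ C * t ^ (1 / (k : ℝ)) := mul_le_mul_of_nonneg_right h7 htpow.le
    _ ≤ w (g / ((n : ℝ) + 1)) := htw.le.trans h6

end Pool.Agent.Lib.P8e91s
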