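import Pool.Agent.Lib.P8e91s.Bump
import Pool.Agent.Lib.P8e91s.Slow

/-!
# The family of radial potentials with a prescribed modulus

Package for MP_8e91ed_lc SharpModulus. The text follows `P8e91ed.NoOracle`, with bumps whose
modulus of continuity is controlled by `w`.
-/

set_option autoImplicit false

open MeasureTheory Set Filter Topology

noncomputable section

namespace Pool.Agent.Lib.P8e91s

open Pool.Agent.Lib.P8e91ed.NoOracle

variable {d : ℕ} {a : ℝ} {w : ℝ → ℝ}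

/-- A family of bump functions, one countable family per shell. -/
structure Fam (d : ℕ) (a : ℝ) (w : ℝ → ℝ) where
  h : ℕ → ℕ → ℝ → ℝ
  cont : ∀ c m, Continuous (h c m)
  nonneg : ∀ c m t, 0 ≤ h c m t
  le : ∀ c m t, h c m t ≤ a * rad c
  lo : ∀ c m t, t ≤ rad (c + 1) → h c m t = 0
  hi : ∀ c m t, rad c ≤ t → h c m t = 0
  modulus : ∀ c m s t, s ≠ t → |s - t| ≤ 1 → |h c m s - h c m t| ≤ rad c * w |s - t|
  lip : ∀ c m, ∃ L : ℝ, 0 ≤ L ∧ ∀ s t, |h c m s - h c m t| ≤ L * |s - t|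
  zero : ∀ c t, h c 0 t = 0
  avoid : ∀ c, ∀ T : Finset (Fin d → ℚ), ∃ m, (∀ x ∈ T, h c m ‖(pt x : Sp d)‖ = 0) ∧
    rad c * (min a (w (width d c T.card)) / 2) * (rad c ^ d / 4 * v1 d) ≤ ∫ x : Sp d, h c m ‖x‖

lemma spike_modulus (hw : Modulus w) (ha : 0 < a) {c : ℕ} {T : Finset ℝ} {δ : ℝ} (hδ : 0 < δ)
    (hδ1 : δ ≤ 1) {s t : ℝ} (hne : s ≠ t) (hst : |s - t| ≤ 1) :
    |spike c T (rad c * (min a (w δ) / 2)) δ s - spike c T (rad c * (min a (w δ) / 2)) δ t| ≤
      rad c * w |s - t| := by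
  have hwδ := hw.pos δ hδ hδ1
  have hr := rad_pos c
  have hmin : 0 < min a (w δ) := lt_min ha hwδ
  have hH : 0 ≤ rad c * (min a (w δ) / 2) := by positivity
  have hH2 : rad c * (min a (w δ) / 2) ≤ rad c * (w δ / 2) :=
    mul_le_mul_of_nonneg_left (by have := min_le_right a (w δ); linarith) hr.le
  have hpos : 0 < |s - t| := abs_pos.2 (sub_ne_zero.2 hne)
  rcases le_total δ |s - t| with h | h
  · have h1 := spike_nonneg (c := c) (T := T) hH hδ s
    have h2 := spike_nonneg (c := c) (T := T) hH hδ t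
    have h3 := spike_le (c := c) (T := T) hH hδ s
    have h4 := spike_le (c := c) (T := T) hH hδ t
    have h5 : |spike c T (rad c * (min a (w δ) / 2)) δ s -
        spike c T (rad c * (min a (w δ) / 2)) δ t| ≤ rad c * (min a (w δ) / 2) :=
      abs_le.2 ⟨by linarith, by linarith⟩
    refine h5.trans (hH2.trans ?_)
    have h6 := hw.mono _ _ hδ h hst
    exact mul_le_mul_of_nonneg_left (by linarith) hr.le
  · refine (spike_lip hH hδ s t).trans ?_
    have h1 : w δ * |s - t| ≤ 2 * w |s - t| * δ := hw.two hpos h hδ1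
    have h2 : rad c * (min a (w δ) / 2) / δ * |s - t| ≤ rad c * (w δ / 2) / δ * |s - t| := by
      refine mul_le_mul_of_nonneg_right ?_ hpos.le
      exact div_le_div_of_nonneg_right hH2 hδ.le
    refine h2.trans ?_
    rw [div_mul_eq_mul_div, div_le_iff₀ hδ]
    have h3 : rad c * (w δ * |s - t|) ≤ rad c * (2 * w |s - t| * δ) :=
      mul_le_mul_of_nonneg_left h1 hr.le
    nlinarith

lemma exists_fam [Nontrivial (Sp d)] (hd : 1 ≤ d) (hw : Modulus w) (ha : 0 < a) :
    Nonempty (Fam d a w) := by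
  classical
  obtain ⟨e, he⟩ := exists_surjective_nat (Finset (Fin d → ℚ))
  set b : ℕ → Finset (Fin d → ℚ) → ℝ → ℝ := fun c S =>
    spike c (S.image fun x => ‖(pt x : Sp d)‖) (rad c * (min a (w (width d c S.card)) / 2))
      (width d c S.card) with hb
  have hw1 : ∀ c N, width d c N ≤ 1 := fun c N => by
    have := width_le hd c N
    have := rad_le_half c
    linarith
  have hH : ∀ c N, 0 ≤ rad c * (min a (w (width d c N)) / 2) := fun c N => by
    have h1 : 0 < min a (w (width d c N)) := lt_min ha (hw.pos _ (width_pos hd c N) (hw1 c N))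
    have h2 := rad_pos c
    positivity
  refine ⟨⟨fun c m t => Nat.casesOn m 0 (fun k => b c (e k) t), ?_, ?_, ?_, ?_, ?_, ?_, ?_, ?_,
    ?_⟩⟩
  · intro c m
    cases m with
    | zero => exact continuous_const
    | succ k => exact spike_continuous _ _ _ _
  · intro c m t
    cases m with
    | zero => exact le_refl _
    | succ k => exact spike_nonneg (hH c _) (width_pos hd c _) t
  · intro c m t
    cases m with
    | zero => exact mul_nonneg ha.le (rad_pos c).le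
    | succ k =>
      refine (spike_le (hH c _) (width_pos hd c _) t).trans ?_
      rw [mul_comm]
      refine mul_le_mul_of_nonneg_right ?_ (rad_pos c).le
      have := min_le_left a (w (width d c (e k).card))
      linarith
  · intro c m t ht
    cases m with
    | zero => rfl
    | succ k => exact spike_zero_lo (width_pos hd c _) ht
  · intro c m t ht
    cases m with
    | zero => rfl
    | succ k => exact spike_zero_hi (width_pos hd c _) ht
  · intro c m s t hne hst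
    cases m with
    | zero =>
      have h1 := hw.pos _ (abs_pos.2 (sub_ne_zero.2 hne)) hst
      have h2 := rad_pos c
      show |(0 : ℝ) - 0| ≤ _
      rw [sub_self, abs_zero]
      positivity
    | succ k => exact spike_modulus hw ha (width_pos hd c _) (hw1 c _) hne hst
  · intro c m
    cases m with
    | zero =>
      refine ⟨0, le_rfl, fun s t => ?_⟩
      show |(0 : ℝ) - 0| ≤ _
      simp
    | succ k =>
      have h1 := hH c (e k).card
      have h2 := width_pos hd c (e k).card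
      exact ⟨rad c * (min a (w (width d c (e k).card)) / 2) / width d c (e k).card,
        by positivity, fun s t => spike_lip h1 h2 s t⟩
  · intro c t; rfl
  · intro c T
    obtain ⟨k, hk⟩ := he T
    refine ⟨k + 1, ?_, ?_⟩
    · intro x hx
      show b c (e k) _ = 0
      rw [hk]
      exact spike_zero_T (width_pos hd c _) (Finset.mem_image_of_mem _ hx)
    · show _ ≤ ∫ x : Sp d, b c (e k) ‖x‖
      rw [hk]
      exact spike_integral hd c _ Finset.card_image_le (hH c _)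

/-- The total depth `D_ξ = 1 - e^{-φ_ξ}` as a function of the radius. -/
def Fam.D (F : Fam d a w) (ξ : ℕ → ℕ) (t : ℝ) : ℝ := ∑' c, F.h c (ξ c) t

lemma Fam.norm_le (F : Fam d a w) (c m : ℕ) (t : ℝ) :
    ‖F.h c m t‖ ≤ a * rad c := by
  rw [Real.norm_of_nonneg (F.nonneg c m t)]
  exact F.le c m t

lemma Fam.summable (F : Fam d a w) (ξ : ℕ → ℕ) (t : ℝ) :
    Summable (fun c => F.h c (ξ c) t) :=
  Summable.of_norm_bounded (summable_rad.mul_left a) (fun c => F.norm_le c (ξ c) t)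

lemma Fam.D_nonneg (F : Fam d a w) (ξ : ℕ → ℕ) (t : ℝ) : 0 ≤ F.D ξ t :=
  tsum_nonneg fun c => F.nonneg c _ t

lemma Fam.D_le (F : Fam d a w) (ξ : ℕ → ℕ) (t : ℝ) : F.D ξ t ≤ a := by
  have h := (F.summable ξ t).tsum_le_tsum (fun c => F.le c (ξ c) t)
    (summable_rad.mul_left a)
  rw [tsum_mul_left, tsum_rad, mul_one] at h
  exact h

lemma Fam.D_cont (F : Fam d a w) (ξ : ℕ → ℕ) : Continuous (F.D ξ) :=
  continuous_tsum (fun c => F.cont c (ξ c)) (summable_rad.mul_left a)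
    (fun c t => F.norm_le c (ξ c) t)

lemma Fam.D_cont_index (F : Fam d a w) (t : ℝ) :
    Continuous (fun ξ : ℕ → ℕ => F.D ξ t) := by
  refine continuous_tsum (fun c => ?_) (summable_rad.mul_left a)
    (fun c ξ => F.norm_le c (ξ c) t)
  exact (continuous_of_discreteTopology (f := fun m : ℕ => F.h c m t)).comp (continuous_apply c)

lemma Fam.D_far (F : Fam d a w) (ξ : ℕ → ℕ) {t : ℝ} (ht : 1 / 2 ≤ t) :
    F.D ξ t = 0 := by
  have : ∀ c, F.h c (ξ c) t = 0 := fun c => F.hi c _ t ((rad_le_half c).trans ht)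
  unfold Fam.D
  simp [this]

lemma Fam.D_nonpos (F : Fam d a w) (ξ : ℕ → ℕ) {t : ℝ} (ht : t ≤ 0) : F.D ξ t = 0 := by
  have : ∀ c, F.h c (ξ c) t = 0 := fun c => F.lo c _ t (ht.trans (rad_pos _).le)
  unfold Fam.D
  simp [this]

lemma Fam.D_local (F : Fam d a w) {ξ η : ℕ → ℕ} {J : ℕ} {t : ℝ} (ht : rad J ≤ t)
    (h : ∀ c < J, F.h c (ξ c) t = F.h c (η c) t) : F.D ξ t = F.D η t := by
  unfold Fam.D
  refine tsum_congr fun c => ?_
  rcases lt_or_ge c J with hc | hc
  · exact h c hc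
  · have : ∀ m, F.h c m t = 0 := fun m => F.hi c m t ((rad_anti hc).trans ht)
    rw [this, this]

lemma Fam.D_modulus (F : Fam d a w) (ξ : ℕ → ℕ) {s t : ℝ} (hne : s ≠ t) (hst : |s - t| ≤ 1) :
    |F.D ξ s - F.D ξ t| ≤ w |s - t| := by
  unfold Fam.D
  have s1 := F.summable ξ s
  have s2 := F.summable ξ t
  rw [← s1.tsum_sub s2]
  have hb : ∀ c, |F.h c (ξ c) s - F.h c (ξ c) t| ≤ rad c * w |s - t| := fun c =>
    F.modulus c _ s t hne hst
  have hs3 : Summable (fun c => rad c * w |s - t|) := summable_rad.mul_right _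
  have hs4 : Summable (fun c => |F.h c (ξ c) s - F.h c (ξ c) t|) :=
    Summable.of_nonneg_of_le (fun _ => abs_nonneg _) hb hs3
  have h1 : |∑' c, (F.h c (ξ c) s - F.h c (ξ c) t)| ≤ ∑' c, |F.h c (ξ c) s - F.h c (ξ c) t| := by
    simpa [Real.norm_eq_abs] using norm_tsum_le_tsum_norm
      (f := fun c => F.h c (ξ c) s - F.h c (ξ c) t) (by simpa [Real.norm_eq_abs] using hs4)
  refine h1.trans ((hs4.tsum_le_tsum hb hs3).trans (le_of_eq ?_))
  rw [tsum_mul_right, tsum_rad, one_mul]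

/-- Away from the origin the total depth is Lipschitz. -/
lemma Fam.D_lip (F : Fam d a w) (ξ : ℕ → ℕ) (J : ℕ) : ∃ L : ℝ, 0 ≤ L ∧ ∀ s t, rad J ≤ s →
    rad J ≤ t → |F.D ξ s - F.D ξ t| ≤ L * |s - t| := by
  choose L hL0 hL using fun c => F.lip c (ξ c)
  refine ⟨∑ c ∈ Finset.range J, L c, Finset.sum_nonneg fun c _ => hL0 c, fun s t hs ht => ?_⟩
  have hsum : ∀ u, rad J ≤ u → F.D ξ u = ∑ c ∈ Finset.range J, F.h c (ξ c) u := by
    intro u hu
    unfold Fam.D
    refine tsum_eq_sum fun c hc => ?_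
    rw [Finset.mem_range, not_lt] at hc
    exact F.hi c _ u ((rad_anti hc).trans hu)
  rw [hsum s hs, hsum t ht, ← Finset.sum_sub_distrib, Finset.sum_mul]
  exact (Finset.abs_sum_le_sum_abs _ _).trans (Finset.sum_le_sum fun c _ => hL c s t)

/-- The potential attached to `ξ`, as a function of the radius. -/
def Fam.pot (F : Fam d a w) (ξ : ℕ → ℕ) (t : ℝ) : ℝ := -Real.log (1 - F.D ξ t)

lemma Fam.one_sub_pos (F : Fam d a w) (ha2 : a ≤ 1 / 2) (ξ : ℕ → ℕ) (t : ℝ) :
    0 < 1 - F.D ξ t := by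
  have := F.D_le ξ t
  linarith

lemma Fam.exp_pot (F : Fam d a w) (ha2 : a ≤ 1 / 2) (ξ : ℕ → ℕ) (t : ℝ) :
    Real.exp (-(F.pot ξ t)) = 1 - F.D ξ t := by
  unfold Fam.pot
  rw [neg_neg, Real.exp_log (F.one_sub_pos ha2 ξ t)]

lemma Fam.pot_nonneg (F : Fam d a w) (ha2 : a ≤ 1 / 2) (ξ : ℕ → ℕ) (t : ℝ) :
    0 ≤ F.pot ξ t := by
  unfold Fam.pot
  rw [neg_nonneg]
  exact Real.log_nonpos (F.one_sub_pos ha2 ξ t).le (by have := F.D_nonneg ξ t; linarith)

lemma Fam.pot_cont (F : Fam d a w) (ha2 : a ≤ 1 / 2) (ξ : ℕ → ℕ) :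
    Continuous (F.pot ξ) := by
  unfold Fam.pot
  exact ((continuous_const.sub (F.D_cont ξ)).log
    (fun t => (F.one_sub_pos ha2 ξ t).ne')).neg

lemma Fam.pot_cont_index (F : Fam d a w) (ha2 : a ≤ 1 / 2) (t : ℝ) :
    Continuous (fun ξ : ℕ → ℕ => F.pot ξ t) := by
  unfold Fam.pot
  exact ((continuous_const.sub (F.D_cont_index t)).log
    (fun ξ => (F.one_sub_pos ha2 ξ t).ne')).neg

lemma Fam.pot_far (F : Fam d a w) (ξ : ℕ → ℕ) {t : ℝ} (ht : 1 / 2 ≤ t) :
    F.pot ξ t = 0 := by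
  unfold Fam.pot
  rw [F.D_far ξ ht]
  simp

section pots

variable (F : Fam d a w)

/-- The potential on `R^d` attached to `ξ`. -/
def Fam.phi (F : Fam d a w) (ξ : ℕ → ℕ) (x : Sp d) : ℝ := F.pot ξ ‖x‖

lemma Fam.phi_cont (ha2 : a ≤ 1 / 2) (ξ : ℕ → ℕ) : Continuous (F.phi ξ) :=
  (F.pot_cont ha2 ξ).comp continuous_norm

lemma Fam.phi_nonneg (ha2 : a ≤ 1 / 2) (ξ : ℕ → ℕ) (x : Sp d) : 0 ≤ F.phi ξ x :=
  F.pot_nonneg ha2 ξ _

lemma Fam.phi_cont_index (ha2 : a ≤ 1 / 2) (x : Sp d) :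
    Continuous (fun ξ : ℕ → ℕ => F.phi ξ x) :=
  F.pot_cont_index ha2 ‖x‖

lemma Fam.phi_modulus (hw : Modulus w) (ha2 : a ≤ 1 / 2) (ξ : ℕ → ℕ) {x y : Sp d}
    (hne : x ≠ y) (hxy : ‖x - y‖ ≤ 1) :
    |Real.exp (-(F.phi ξ x)) - Real.exp (-(F.phi ξ y))| ≤ w ‖x - y‖ := by
  unfold Fam.phi
  rw [F.exp_pot ha2, F.exp_pot ha2]
  have hpos : 0 < ‖x - y‖ := norm_pos_iff.2 (sub_ne_zero.2 hne)
  have h0 : |‖x‖ - ‖y‖| ≤ ‖x - y‖ := abs_norm_sub_norm_le x y
  by_cases h : ‖x‖ = ‖y‖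
  · rw [h, sub_self, abs_zero]
    exact (hw.pos _ hpos hxy).le
  · have h1 := F.D_modulus ξ h (h0.trans hxy)
    have h2 : 1 - F.D ξ ‖x‖ - (1 - F.D ξ ‖y‖) = -(F.D ξ ‖x‖ - F.D ξ ‖y‖) := by ring
    rw [h2, abs_neg]
    exact h1.trans (hw.mono _ _ (abs_pos.2 (sub_ne_zero.2 h)) h0 hxy)

/-- Away from the origin the Boltzmann factor is Lipschitz. -/
lemma Fam.exp_lip (ha2 : a ≤ 1 / 2) (ξ : ℕ → ℕ) {ρ : ℝ} (hρ : 0 < ρ) :
    ∃ L : ℝ, ∀ x y : Sp d, ρ ≤ ‖x‖ → ρ ≤ ‖y‖ →
      |Real.exp (-(F.phi ξ x)) - Real.exp (-(F.phi ξ y))| ≤ L * ‖x - y‖ := by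
  obtain ⟨J, hJ⟩ := ((tendsto_order.1 summable_rad.tendsto_atTop_zero).2 _ hρ).exists
  obtain ⟨L, hL0, hL⟩ := F.D_lip ξ J
  refine ⟨L, fun x y hx hy => ?_⟩
  unfold Fam.phi
  rw [F.exp_pot ha2, F.exp_pot ha2]
  have h3 := hL ‖x‖ ‖y‖ (hJ.le.trans hx) (hJ.le.trans hy)
  have h4 : 1 - F.D ξ ‖x‖ - (1 - F.D ξ ‖y‖) = -(F.D ξ ‖x‖ - F.D ξ ‖y‖) := by ring
  rw [h4, abs_neg]
  exact h3.trans (mul_le_mul_of_nonneg_left (abs_norm_sub_norm_le x y) hL0)

/-- The partition function as a function of `ξ`. -/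
def Fam.Z (F : Fam d a w) (n : ℕ) (lam : ℝ) (ξ : ℕ → ℕ) : ℝ :=
  partitionFunction (F.phi ξ) (box d n) lam

lemma Fam.Z_cont (ha2 : a ≤ 1 / 2) {lam : ℝ} (hl : 0 ≤ lam) (n : ℕ) :
    Continuous (F.Z n lam) := by
  unfold Fam.Z
  simp only [partitionFunction_eq]
  refine continuous_tsum (fun k => ?_) (summable_coef (d := d) (lam := lam) n) (fun k ξ => ?_)
  · refine continuous_const.mul ?_
    unfold term
    refine continuous_of_dominated (bound := fun _ => (1 : ℝ)) (fun ξ => ?_) (fun ξ => ?_) ?_ ?_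
    · exact (Real.continuous_exp.comp
        (energy_cont (F.phi_cont ha2 ξ) k).neg).aestronglyMeasurable
    · refine Eventually.of_forall fun x => ?_
      rw [Real.norm_of_nonneg (Real.exp_pos _).le]
      exact Real.exp_le_one_iff.2 (neg_nonpos.2 (energy_nonneg (F.phi_nonneg ha2 ξ) x))
    · exact integrableOn_const (cube_finite d n k).ne
    · refine Eventually.of_forall fun x => ?_
      refine Real.continuous_exp.comp (Continuous.neg ?_)
      unfold energy
      refine continuous_finsetSum _ fun i _ => continuous_finsetSum _ fun j _ => ?_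
      split_ifs
      · exact F.phi_cont_index ha2 _
      · exact continuous_const
  · have h1 := term_nonneg (F.phi ξ) n k
    rw [Real.norm_of_nonneg (by positivity)]
    exact mul_le_mul_of_nonneg_left (term_le (F.phi_cont ha2 ξ) (F.phi_nonneg ha2 ξ) n k)
      (by positivity)

lemma Fam.connective_le (ha2 : a ≤ 1 / 2) (ξ : ℕ → ℕ) :
    connectiveConstant (F.phi ξ) ≤
      a * (volume (Metric.closedBall (0 : Sp d) (1 / 2))).toReal := by
  refine (connectiveConstant_le (F.phi_nonneg ha2 ξ)).trans ?_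
  have h1 : ∀ x : Sp d, 1 - Real.exp (-(F.phi ξ x)) = F.D ξ ‖x‖ := fun x => by
    unfold Fam.phi
    rw [F.exp_pot ha2]
    ring
  simp only [h1]
  have h2 : ∫ x : Sp d, F.D ξ ‖x‖ = ∫ x in Metric.closedBall (0 : Sp d) (1 / 2), F.D ξ ‖x‖ := by
    rw [setIntegral_eq_integral_of_forall_compl_eq_zero]
    intro x hx
    simp only [Metric.mem_closedBall, dist_zero_right, not_le] at hx
    exact F.D_far ξ hx.le
  rw [h2]
  have h3 : ∫ x in Metric.closedBall (0 : Sp d) (1 / 2), F.D ξ ‖x‖ ≤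
      ∫ _x in Metric.closedBall (0 : Sp d) (1 / 2), a := by
    refine setIntegral_mono_on ?_ ?_ measurableSet_closedBall (fun x _ => F.D_le ξ _)
    · exact ((F.D_cont ξ).comp continuous_norm).continuousOn.integrableOn_compact
        (isCompact_closedBall _ _)
    · exact integrableOn_const measure_closedBall_lt_top.ne
  refine h3.trans (le_of_eq ?_)
  rw [setIntegral_const, smul_eq_mul, mul_comm]
  rfl

/-- Changing the `J`-th shell from nothing to a bump lowers the partition function. -/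
lemma Fam.Z_gap (ha2 : a ≤ 1 / 2) {lam : ℝ} (hl : 0 ≤ lam) {n : ℕ} (hn : 1 ≤ n)
    (ξ : ℕ → ℕ) (J m : ℕ) (hJ : ξ J = 0) :
    lam ^ 2 / 2 * ((volume (Metric.closedBall (0 : Sp d) (1 / 2))).toReal *
      ∫ x : Sp d, F.h J m ‖x‖) ≤ F.Z n lam ξ - F.Z n lam (Function.update ξ J m) := by
  have hD : ∀ t, F.D (Function.update ξ J m) t = F.D ξ t + F.h J m t := by
    intro t
    unfold Fam.D
    have s1 := F.summable (Function.update ξ J m) t
    have s2 := F.summable ξ t
    rw [s1.tsum_eq_add_tsum_ite J, s2.tsum_eq_add_tsum_ite J]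
    have : ∀ c, (if c = J then 0 else F.h c (Function.update ξ J m c) t) =
        if c = J then 0 else F.h c (ξ c) t := by
      intro c
      split_ifs with h
      · rfl
      · rw [Function.update_of_ne h]
    simp only [this, Function.update_self, hJ, F.zero]
    ring
  have hpot : ∀ t, F.pot ξ t ≤ F.pot (Function.update ξ J m) t := by
    intro t
    unfold Fam.pot
    refine neg_le_neg (Real.log_le_log (F.one_sub_pos ha2 _ t) ?_)
    rw [hD]
    have := F.nonneg J m t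
    linarith
  have hdiff := partitionFunction_diff (F.phi_cont ha2 ξ) (F.phi_nonneg ha2 ξ)
    (F.phi_cont ha2 (Function.update ξ J m)) (fun x => hpot ‖x‖) hl n
  refine le_trans ?_ hdiff
  refine mul_le_mul_of_nonneg_left ?_ (by positivity)
  refine term_two_diff (F.cont J m) (F.nonneg J m) ?_ (F.phi_cont ha2 ξ)
    (F.phi_nonneg ha2 ξ) (F.phi_cont ha2 _) (F.phi_nonneg ha2 _) ?_ hn
  · intro t ht
    exact F.hi J m t ((rad_le_half J).trans ht)
  · intro x
    unfold Fam.phi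
    rw [F.exp_pot ha2, F.exp_pot ha2, hD]
    ring

end pots

end Pool.Agent.Lib.P8e91s
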