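import Pool.Agent.Lib.P8e91ed.Defs

/-!
# A modulus bounded by a power gives an averaged modulus bounded by a power

Package for MP_8e91ed_lc ExactThreshold.
-/

set_option autoImplicit false

open MeasureTheory

noncomputable section

namespace Pool.Agent.Lib.P8e91s

open Pool.Agent.Lib.P8e91ed

theorem holderAvg_of_modulus {d : ℕ} {q : Sp d → ℝ} {r C α : ℝ} (hα : 0 < α)
    (hfar : ∀ x, r < ‖x‖ → q x = 1)
    (hq : ∀ x y, ‖x - y‖ ≤ 1 → |q x - q y| ≤ C * ‖x - y‖ ^ α) : ∃ C', HolderAvg q C' α := by
  set r' : ℝ := max r 0 + 1 with hr'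
  set C0 : ℝ := max C 0 with hC0
  have hC00 : 0 ≤ C0 := le_max_right _ _
  refine ⟨2 * C0 * volume.real (Metric.closedBall (0 : Sp d) r'), ?_⟩
  intro δ hδ hδ1
  have hδα : 0 ≤ δ ^ α := Real.rpow_nonneg hδ.le α
  refine ⟨(Metric.closedBall (0 : Sp d) r').indicator (fun _ => 2 * C0 * δ ^ α), ?_, ?_, ?_, ?_, ?_⟩
  · exact measurable_const.indicator measurableSet_closedBall
  · intro x
    exact Set.indicator_nonneg (fun _ _ => by positivity) x
  · exact (integrable_indicator_iff measurableSet_closedBall).2
      (integrableOn_const measure_closedBall_lt_top.ne)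
  · intro x y z hy hz
    by_cases hx : x ∈ Metric.closedBall (0 : Sp d) r'
    · rw [Set.indicator_of_mem hx]
      have key : ∀ u, ‖u - x‖ < δ → |q u - q x| ≤ C0 * δ ^ α := by
        intro u hu
        refine (hq u x (by linarith)).trans ?_
        have h1 : ‖u - x‖ ^ α ≤ δ ^ α := Real.rpow_le_rpow (norm_nonneg _) hu.le hα.le
        have h2 : 0 ≤ ‖u - x‖ ^ α := Real.rpow_nonneg (norm_nonneg _) α
        exact mul_le_mul (le_max_left _ _) h1 h2 hC00
      have h1 := key y hy
      have h2 := key z hz
      have h3 : q y - q z = (q y - q x) - (q z - q x) := by ring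
      rw [h3]
      refine (abs_sub _ _).trans ?_
      linarith
    · rw [Set.indicator_of_notMem hx]
      have hx' : r' < ‖x‖ := by
        simpa [Metric.mem_closedBall, dist_zero_right] using hx
      have key : ∀ u, ‖u - x‖ < δ → q u = 1 := by
        intro u hu
        apply hfar
        have h1 : ‖x‖ - ‖u‖ ≤ ‖u - x‖ := by
          have := norm_sub_norm_le x u
          rwa [norm_sub_rev] at this
        have h2 : r ≤ max r 0 := le_max_left _ _
        linarith
      rw [key y hy, key z hz, sub_self, abs_zero]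
  · rw [integral_indicator measurableSet_closedBall, setIntegral_const, smul_eq_mul]
    exact le_of_eq (by ring)

end Pool.Agent.Lib.P8e91s
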