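import Pool.Agent.Lib.P8e91s.Fam

/-!
# No oracle algorithm within a budget which is too small for the modulus

Package for MP_8e91ed_lc SharpModulus.
-/

set_option autoImplicit false

open MeasureTheory Set Filter Topology

noncomputable section

namespace Pool.Agent.Lib.P8e91s

open Pool.Agent.Lib.P8e91ed.NoOracle

variable {d : ℕ} {a : ℝ} {w : ℝ → ℝ}

/-- `A` approximates the partition function of the box `Λ_n` to every relative error `ε`, and its
output is determined by at most `N(ε)` answers of the oracle. -/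
def Within (A : Procedure d) (O : Query d → ℚ) (φ : Sp d → ℝ) (lam : ℝ) (n : ℕ) (N : ℚ → ℕ) :
    Prop :=
  ∀ ε : ℚ, 0 < ε → ε < 1 → ∃ (r : ℚ) (S : Finset (Query d)), S.card ≤ N ε ∧
    (∀ O' : Query d → ℚ, (∀ s ∈ S, O' s = O s) → A n ε O' = some r) ∧
    |(r : ℝ) - partitionFunction φ (box d n) lam| ≤ (ε : ℝ) * partitionFunction φ (box d n) lam

lemma nowhere_dense [Nontrivial (Sp d)] (hd : 1 ≤ d) (F : Fam d a w) (hw : Modulus w)
    (ha : 0 < a) (ha2 : a ≤ 1 / 2) {lam : ℝ}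
    (hl : 0 < lam) {n : ℕ} (hn : 1 ≤ n) {N : ℚ → ℕ} (hN : TooSmall w N) (R : ℝ → Query d → ℚ)
    (A : Procedure d) :
    ¬ (interior (closure {ξ : ℕ → ℕ |
      Within A (oracle R (F.phi ξ)) (F.phi ξ) lam n N})).Nonempty := by
  classical
  set Succ : Set (ℕ → ℕ) := {ξ | Within A (oracle R (F.phi ξ)) (F.phi ξ) lam n N} with hSucc
  rintro ⟨ξ₀, hξ₀⟩
  obtain ⟨J, -, hJ⟩ := exists_cyl_sub isOpen_interior hξ₀ 0
  have hdense : ∀ η, η ∈ cyl ξ₀ J → ∀ V : Set (ℕ → ℕ), IsOpen V → η ∈ V → ∃ ζ ∈ V, ζ ∈ Succ := by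
    intro η hη V hV hηV
    have : η ∈ closure Succ := interior_subset (hJ hη)
    exact mem_closure_iff.1 this V hV hηV
  -- the choice of `ε`
  set v : ℝ := (volume (Metric.closedBall (0 : Sp d) (1 / 2))).toReal with hv
  have hvpos : 0 < v := by
    refine ENNReal.toReal_pos ?_ measure_closedBall_lt_top.ne
    exact (Metric.measure_closedBall_pos volume _ (by norm_num)).ne'
  set M : ℝ := bound d n lam with hM
  have hM0 : 0 ≤ M := by
    have h1 := partitionFunction_nonneg (φ := F.phi ξ₀) hl.le n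
    exact h1.trans (partitionFunction_le (F.phi_cont ha2 _) (F.phi_nonneg ha2 _) hl.le n)
  have hrJ := rad_pos J
  have hv1 := v1_pos d
  have hd0 : (0 : ℝ) < d := by exact_mod_cast hd
  set B : ℝ := lam ^ 2 / 2 * (v * (rad J / 2 * (rad J ^ d / 4 * v1 d))) with hB
  have hBpos : 0 < B := by positivity
  set g : ℝ := rad J ^ d / (16 * d) with hg
  have hgpos : 0 < g := by positivity
  have hg1 : g ≤ 1 := by
    have h1 := width_le hd J 0
    have h2 := rad_le_half J
    have h3 : g = width d J 0 := by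
      rw [hg]
      unfold width
      push_cast
      congr 1
      ring
    rw [h3]
    linarith
  obtain ⟨ε, hε0', hε1', hεw⟩ := exists_eps hw hN ha hgpos hg1
    (show 0 < 8 * (M + 1) / B by positivity)
  have hε0 : (0 : ℝ) < ε := by exact_mod_cast hε0'
  have hε1 : (ε : ℝ) < 1 := by exact_mod_cast hε1'
  have hZM : ∀ ξ, F.Z n lam ξ ≤ M := fun ξ =>
    partitionFunction_le (F.phi_cont ha2 _) (F.phi_nonneg ha2 _) hl.le n
  -- step 1: a successful point with empty `J`-th shell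
  obtain ⟨η, hηV, hηS⟩ := hdense (fun c => if c < J then ξ₀ c else 0)
    (fun c hc => by simp [hc]) (cyl (fun c => if c < J then ξ₀ c else 0) (J + 1)) (cyl_open _ _)
    (fun c _ => rfl)
  have hηJ : η J = 0 := by simpa using hηV J (by omega)
  have hηlt : ∀ c < J, η c = ξ₀ c := fun c hc => by simpa [hc] using hηV c (by omega)
  obtain ⟨r, S, hcard, hS, -⟩ := hηS ε hε0' hε1'
  set T : Finset (Fin d → ℚ) := S.image Prod.fst with hT
  obtain ⟨J', hJJ', hJ'⟩ := exists_rad_lt T (J + 1)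
  obtain ⟨m, hm0, hmI⟩ := F.avoid J T
  set E : ℝ := lam ^ 2 / 2 * (v * ∫ x : Sp d, F.h J m ‖x‖) with hE
  -- the size of the gap
  have hEε : 8 * (M + 1) * (ε : ℝ) ≤ E := by
    have hTc : (T.card : ℝ) ≤ N ε := by
      have h1 : T.card ≤ S.card := Finset.card_image_le
      exact_mod_cast h1.trans hcard
    have hN0 : (0 : ℝ) ≤ N ε := Nat.cast_nonneg _
    have hwd : g / ((N ε : ℝ) + 1) ≤ width d J T.card := by
      unfold width
      rw [hg, div_div]
      refine div_le_div_of_nonneg_left (by positivity) (by positivity) ?_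
      nlinarith
    have hw1 : width d J T.card ≤ 1 := by
      have h1 := width_le hd J T.card
      have h2 := rad_le_half J
      linarith
    have hwm : w (g / ((N ε : ℝ) + 1)) ≤ w (width d J T.card) :=
      hw.mono _ _ (by positivity) hwd hw1
    have h3 : 8 * (M + 1) / B * (ε : ℝ) ≤ min a (w (width d J T.card)) :=
      hεw.trans (min_le_min le_rfl hwm)
    have h4 : B * min a (w (width d J T.card)) ≤ E := by
      have h5 : lam ^ 2 / 2 * (v * (rad J * (min a (w (width d J T.card)) / 2) *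
          (rad J ^ d / 4 * v1 d))) ≤ E :=
        mul_le_mul_of_nonneg_left (mul_le_mul_of_nonneg_left hmI hvpos.le) (by positivity)
      refine le_trans (le_of_eq ?_) h5
      rw [hB]
      ring
    calc 8 * (M + 1) * (ε : ℝ) = B * (8 * (M + 1) / B * (ε : ℝ)) := by field_simp
      _ ≤ B * min a (w (width d J T.card)) := mul_le_mul_of_nonneg_left h3 hBpos.le
      _ ≤ E := h4
  have hEpos : 0 < E := lt_of_lt_of_le (by positivity) hEε
  have hεM : (ε : ℝ) * M ≤ E / 8 := by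
    have : (ε : ℝ) * M ≤ (M + 1) * ε := by nlinarith
    linarith
  -- step 2: the two truncated points
  set η₀ : ℕ → ℕ := fun c => if c < J' then η c else 0 with hη₀
  set η₁ : ℕ → ℕ := Function.update η₀ J m with hη₁
  have hη₀J : η₀ J = 0 := by simp [hη₀, hηJ]
  have hgap : E ≤ F.Z n lam η₀ - F.Z n lam η₁ := F.Z_gap ha2 hl.le hn η₀ J m hη₀J
  -- step 3: nearby successful points
  have key : ∀ ζ₀ : ℕ → ℕ, (∀ c < J, ζ₀ c = ξ₀ c) →
      (∀ c < J', ∀ x ∈ T, F.h c (ζ₀ c) ‖(pt x : Sp d)‖ = F.h c (η c) ‖(pt x : Sp d)‖) →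
      |(r : ℝ) - F.Z n lam ζ₀| ≤ E / 4 := by
    intro ζ₀ h1 h2
    have hcont := (F.Z_cont ha2 hl.le n).continuousAt (x := ζ₀)
    have hnear : {ζ | |F.Z n lam ζ - F.Z n lam ζ₀| < E / 8} ∈ 𝓝 ζ₀ := by
      have h3 := Metric.continuousAt_iff'.1 hcont (E / 8) (by positivity)
      filter_upwards [h3] with ζ hζ
      simpa [Real.dist_eq] using hζ
    obtain ⟨V, hVsub, hVopen, hVmem⟩ := mem_nhds_iff.1 hnear
    obtain ⟨ζ, hζV, hζS⟩ := hdense ζ₀ h1 (V ∩ cyl ζ₀ J') (hVopen.inter (cyl_open _ _))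
      ⟨hVmem, fun c _ => rfl⟩
    have hor : ∀ s ∈ S, oracle R (F.phi ζ) s = oracle R (F.phi η) s := by
      intro s hs
      have hsT : s.1 ∈ T := Finset.mem_image_of_mem _ hs
      have hDD : F.D ζ ‖(pt s.1 : Sp d)‖ = F.D η ‖(pt s.1 : Sp d)‖ := by
        rcases hJ' s.1 hsT with h0 | h0
        · rw [F.D_nonpos ζ h0.le, F.D_nonpos η h0.le]
        · refine F.D_local h0 fun c hc => ?_
          rw [hζV.2 c hc]
          exact h2 c hc s.1 hsT
      unfold oracle Fam.phi Fam.pot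
      rw [hDD]
    have hrun := hS _ hor
    obtain ⟨r', S', -, hr', happ⟩ := hζS ε hε0' hε1'
    have hr'' := hr' _ (fun _ _ => rfl)
    have hrr : r' = r := by
      rw [hrun] at hr''
      exact (Option.some.inj hr'').symm
    rw [hrr] at happ
    have h3 : |(r : ℝ) - F.Z n lam ζ| ≤ E / 8 := by
      refine happ.trans (le_trans ?_ hεM)
      exact mul_le_mul_of_nonneg_left (hZM ζ) hε0.le
    have h4 : |F.Z n lam ζ - F.Z n lam ζ₀| < E / 8 := hVsub hζV.1
    calc |(r : ℝ) - F.Z n lam ζ₀|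
        = |((r : ℝ) - F.Z n lam ζ) + (F.Z n lam ζ - F.Z n lam ζ₀)| := by ring_nf
      _ ≤ |(r : ℝ) - F.Z n lam ζ| + |F.Z n lam ζ - F.Z n lam ζ₀| := abs_add_le _ _
      _ ≤ E / 4 := by linarith
  have k0 := key η₀ (fun c hc => by
      have : c < J' := by omega
      simp [hη₀, this, hηlt c hc]) (fun c hc x _ => by simp [hη₀, hc])
  have k1 := key η₁ (fun c hc => by
      have h1 : c ≠ J := by omega
      have h2 : c < J' := by omega
      simp [hη₁, Function.update_of_ne h1, hη₀, h2, hηlt c hc]) (fun c hc x hx => by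
      by_cases hcJ : c = J
      · subst hcJ
        simp only [hη₁, Function.update_self]
        rw [hm0 x hx, hηJ, F.zero]
      · simp [hη₁, Function.update_of_ne hcJ, hη₀, hc])
  have := abs_le.1 k0
  have := abs_le.1 k1
  linarith

/-- **Theorem.** A potential with modulus `w`, Lipschitz off the origin, which defeats all the
procedures of a sequence within all the budgets of a sequence, at all rational activities. -/
theorem sharp_modulus (d : ℕ) (hd : 1 ≤ d) (w : ℝ → ℝ)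
    (hw : Modulus w) (N : ℕ → ℚ → ℕ) (hN : ∀ c, TooSmall w (N c)) (Λ : ℝ) (R : ℝ → Query d → ℚ)
    (A : ℕ → ℚ → Procedure d) :
    ∃ φ : Sp d → ℝ, Continuous φ ∧ (∀ x, 0 ≤ φ x) ∧ (∀ x y, ‖x‖ = ‖y‖ → φ x = φ y) ∧
      (∀ x, 1 / 2 < ‖x‖ → φ x = 0) ∧
      (∀ x y, x ≠ y → ‖x - y‖ ≤ 1 → |Real.exp (-(φ x)) - Real.exp (-(φ y))| ≤ w ‖x - y‖) ∧
      (∀ ρ, 0 < ρ → ∃ L : ℝ, ∀ x y, ρ ≤ ‖x‖ → ρ ≤ ‖y‖ →
        |Real.exp (-(φ x)) - Real.exp (-(φ y))| ≤ L * ‖x - y‖) ∧
      Λ * connectiveConstant φ < Real.exp 1 ∧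
      ∀ (i : ℕ) (lam : ℚ) (c n : ℕ), 0 < lam → 1 ≤ n →
        ¬ Within (A i lam) (oracle R φ) φ lam n (N c) := by
  classical
  have : Nonempty (Fin d) := ⟨⟨0, hd⟩⟩
  have : Nontrivial (Sp d) := inferInstance
  set v : ℝ := (volume (Metric.closedBall (0 : Sp d) (1 / 2))).toReal with hv
  have hv0 : 0 ≤ v := ENNReal.toReal_nonneg
  set Λ' : ℝ := max Λ 0 with hΛ'
  have hΛ0 : 0 ≤ Λ' := le_max_right _ _
  set a : ℝ := min (1 / 2) (1 / (Λ' * v + 1)) with ha_def
  have ha : 0 < a := lt_min (by norm_num) (by positivity)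
  have ha2 : a ≤ 1 / 2 := min_le_left _ _
  obtain ⟨F⟩ := exists_fam (d := d) hd hw ha
  -- a point outside all the bad sets
  obtain ⟨ξ, hξ⟩ : ∃ ξ : ℕ → ℕ, ∀ (i : ℕ) (lam : ℚ) (c n : ℕ), 0 < lam → 1 ≤ n →
      ¬ Within (A i lam) (oracle R (F.phi ξ)) (F.phi ξ) lam n (N c) := by
    by_contra hcon
    push Not at hcon
    have hU : ⋃ p : ℕ × {q : ℚ // 0 < q} × ℕ × {n : ℕ // 1 ≤ n}, closure {ξ : ℕ → ℕ |
        Within (A p.1 p.2.1) (oracle R (F.phi ξ)) (F.phi ξ) ((p.2.1 : ℚ) : ℝ) p.2.2.2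
          (N p.2.2.1)} = Set.univ := by
      rw [Set.eq_univ_iff_forall]
      intro ξ
      obtain ⟨i, lam, c, n, hl, hn, h⟩ := hcon ξ
      exact Set.mem_iUnion.2 ⟨(i, ⟨lam, hl⟩, c, ⟨n, hn⟩), subset_closure h⟩
    obtain ⟨p, hp⟩ := nonempty_interior_of_iUnion_of_closed (fun _ => isClosed_closure) hU
    have hl : (0 : ℝ) < ((p.2.1 : ℚ) : ℝ) := by exact_mod_cast p.2.1.2
    exact nowhere_dense hd F hw ha ha2 hl p.2.2.2.2 (hN p.2.2.1) R (A p.1 p.2.1) hp
  refine ⟨F.phi ξ, F.phi_cont ha2 ξ, F.phi_nonneg ha2 ξ, ?_, ?_, ?_, ?_, ?_, hξ⟩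
  · intro x y hxy
    unfold Fam.phi
    rw [hxy]
  · intro x hx
    exact F.pot_far ξ hx.le
  · intro x y hne hxy
    exact F.phi_modulus hw ha2 ξ hne hxy
  · intro ρ hρ
    exact F.exp_lip ha2 ξ hρ
  · have hC0 : 0 ≤ connectiveConstant (F.phi ξ) := by
      unfold connectiveConstant
      exact Real.iInf_nonneg fun k => Real.rpow_nonneg (walkIntegral_nonneg (F.phi_nonneg ha2 ξ) _) _
    have h0 : Λ * connectiveConstant (F.phi ξ) ≤ Λ' * connectiveConstant (F.phi ξ) :=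
      mul_le_mul_of_nonneg_right (le_max_left _ _) hC0
    have h1 := F.connective_le ha2 ξ
    have h2 : Λ' * connectiveConstant (F.phi ξ) ≤ Λ' * (a * v) :=
      mul_le_mul_of_nonneg_left h1 hΛ0
    have h3 : Λ' * (a * v) ≤ 1 := by
      have : a ≤ 1 / (Λ' * v + 1) := min_le_right _ _
      calc Λ' * (a * v) = a * (Λ' * v) := by ring
        _ ≤ 1 / (Λ' * v + 1) * (Λ' * v) :=
            mul_le_mul_of_nonneg_right this (by positivity)
        _ ≤ 1 := by
            rw [one_div, inv_mul_le_iff₀ (by positivity)]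
            linarith
    have h4 : (1 : ℝ) < Real.exp 1 := Real.one_lt_exp_iff.2 one_pos
    linarith

end Pool.Agent.Lib.P8e91s
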